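import Pool.Agent.Helper535.MN.Main

/-!
# Compact monotonically normal sequential spaces

The monotonically normal case of both questions.  In ZFC every compact monotonically normal space
of countable tightness (in particular every sequential one) is hereditarily paracompact; if
moreover its cardinality is nonmeasurable then it is hereditarily realcompact and bisequential.
-/

set_option autoImplicit false

open Set Topology Filter

namespace Pool.Agent.Results.MP_018dae_gt.MonotonicallyNormal

universe u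

/-- `X` is monotonically normal: it is a `T₁` space with an operator `μ` assigning to a point `x`
and an open set `U ∋ x` an open set `μ x U` with `x ∈ μ x U ⊆ U`, such that
`μ x U ∩ μ y V ≠ ∅` implies `x ∈ V` or `y ∈ U` (Borges' form of the definition). -/
def MonNormal (X : Type u) [TopologicalSpace X] : Prop :=
  T1Space X ∧ ∃ μ : X → Set X → Set X,
    (∀ x U, IsOpen U → x ∈ U → IsOpen (μ x U) ∧ x ∈ μ x U ∧ μ x U ⊆ U) ∧
    ∀ x y U V, IsOpen U → IsOpen V → x ∈ U → y ∈ V → (μ x U ∩ μ y V).Nonempty → x ∈ V ∨ y ∈ U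

/-- countable tightness: every point of the closure of `B` is in the closure of a countable
subset of `B` -/
def CountablyTight (X : Type u) [TopologicalSpace X] : Prop :=
  ∀ B : Set X, ∀ x ∈ closure B, ∃ C ⊆ B, C.Countable ∧ x ∈ closure C

/-- `Y` is realcompact: homeomorphic to a closed subspace of a power of the real line -/
def Realcompact (Y : Type u) [TopologicalSpace Y] : Prop :=
  ∃ (ι : Type u) (e : Y → (ι → ℝ)), IsClosedEmbedding e

/-- `X` is bisequential -/
def Bisequential (X : Type u) [TopologicalSpace X] : Prop :=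
  ∀ (x : X) (𝒰 : Ultrafilter X), (𝒰 : Filter X) ≤ 𝓝 x →
    ∃ A : ℕ → Set X, Antitone A ∧ (∀ n, A n ∈ 𝒰) ∧ ∀ V ∈ 𝓝 x, ∃ n, A n ⊆ V

/-- the set `X` has nonmeasurable cardinality: every countably complete ultrafilter on `X` is
principal -/
def NonMeasurable (X : Type u) : Prop :=
  ∀ 𝒰 : Ultrafilter X, (∀ s : ℕ → Set X, (∀ n, s n ∈ 𝒰) → (⋂ n, s n) ∈ 𝒰) → ∃ x, 𝒰 = pure x

open Pool.Agent.Helper535.MN in
/-- The monotonically normal case of Q1 and Q2. -/
theorem result (X : Type u) [TopologicalSpace X] [CompactSpace X] [T2Space X]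
    (hmn : MonNormal X) (hseq : SequentialSpace X ∨ CountablyTight X) :
    (∀ S : Set X, ParacompactSpace S) ∧
    (NonMeasurable X → (∀ S : Set X, Realcompact S) ∧ Bisequential X) := by
  obtain ⟨-, μ, hμ1, hμ2⟩ := hmn
  have hμ : MNOp X μ := ⟨fun x U hU hx => (hμ1 x U hU hx).1, fun x U hU hx => (hμ1 x U hU hx).2.1,
    fun x U hU hx => (hμ1 x U hU hx).2.2, hμ2⟩
  have hct : CTight X := by
    rcases hseq with h | h
    · exact ctight_of_seq
    · exact h
  have hP : ∀ Y : Set X, IsOpen Y → Pool.Agent.Helper535.MN.Part Y := fun Y hY => partAll hct hμ Y hY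
  refine ⟨para hP, fun hnm => ⟨?_, ?_⟩⟩
  · intro S
    exact realc (fun p 𝒰 h𝒰 hne => unbounded p 𝒰 hne (keyCover hP hnm p 𝒰 h𝒰 hne)) S
  · intro p 𝒰 h𝒰
    exact bisq p 𝒰 (keyCover hP hnm p 𝒰 h𝒰)

end Pool.Agent.Results.MP_018dae_gt.MonotonicallyNormal
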